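import Pool.Agent.H3Mahler.Assembly
import Pool.Agent.H3Mahler.Link
import Pool.Agent.H3Mahler.Example
import Pool.Agent.H3Mahler.NoUnit

set_option autoImplicit false

namespace Pool.Agent.Results.MP_a046b2_nt.LeastMeasure

open Polynomial

/-- Membership in the set 𝒮 of the problem: `P` is a monic irreducible integer polynomial,
`P ≠ z`, `P(0) = ±1`, `P` is nonreciprocal (`P ≠ ±Q`, where `Q = P.reverse` is `z^d P(1/z)`), and
in the power series `A = P(0) P / Q` (that is, `A * Q = P(0) * P`) the two smallest positive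
exponents `k < ℓ` with nonzero coefficient satisfy `ℓ < 2 k`. -/
def InS (P : ℤ[X]) : Prop :=
  P.Monic ∧ Irreducible P ∧ P ≠ X ∧ (P.coeff 0 = 1 ∨ P.coeff 0 = -1) ∧
  P ≠ P.reverse ∧ P ≠ -P.reverse ∧
  ∃ A : PowerSeries ℤ,
    A * (P.reverse : PowerSeries ℤ) = PowerSeries.C (P.coeff 0) * (P : PowerSeries ℤ) ∧
    ∃ k ℓ : ℕ, 0 < k ∧ k < ℓ ∧ ℓ < 2 * k ∧
      PowerSeries.coeff k A ≠ 0 ∧ PowerSeries.coeff ℓ A ≠ 0 ∧
      ∀ i : ℕ, 0 < i → i < ℓ → i ≠ k → PowerSeries.coeff i A = 0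

/-- Mahler measure of an integer polynomial (Mathlib's Mahler measure of its image in `ℂ[X]`). -/
noncomputable def M (P : ℤ[X]) : ℝ := (P.map (Int.castRingHom ℂ)).mahlerMeasure

lemma lower {P : ℤ[X]} (hP : InS P) {κ : ℝ}
    (hD : 1 - κ ^ 3 - κ ^ 4 - 2 * κ ^ 5 + κ ^ 9 + κ ^ 10 = 0)
    (hκ1 : 73303 / 100000 < κ) (hκ2 : κ < 73304 / 100000) : 1 / κ ≤ M P := by
  obtain ⟨hm, hirr, -, h0, hn1, hn2, A, hA, k, ℓ, hk, hkl, hl2, hAk, hAl, hz⟩ := hP
  have hno : ∀ α ∈ (P.map (Int.castRingHom ℂ)).roots, ‖α‖ ≠ 1 := by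
    intro α hα h1
    have hroot : aeval α P = 0 := by
      have := (mem_roots'.mp hα).2
      rw [IsRoot, eval_map] at this
      rw [aeval_def]
      exact this
    rcases Pool.Agent.H3Mahler.reciprocal_of_unit_root hm hirr h0 hroot h1 with h | h
    · exact hn1 h
    · exact hn2 h
  obtain ⟨F, G, hF, hG, hFG, hG0⟩ :=
    Pool.Agent.H3Mahler.exists_sequences P hm h0 hno A hA
  have hMpos : 0 < (P.map (Int.castRingHom ℂ)).mahlerMeasure :=
    mahlerMeasure_pos_of_ne_zero (hm.map _).ne_zero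
  have hA0 : PowerSeries.coeff 0 A = 1 := by
    have h := congrArg PowerSeries.constantCoeff hA
    rw [map_mul, map_mul, PowerSeries.constantCoeff_C, Polynomial.constantCoeff_coe,
      Polynomial.constantCoeff_coe, coeff_zero_reverse, hm.leadingCoeff, mul_one] at h
    rw [PowerSeries.coeff_zero_eq_constantCoeff, h]
    rcases h0 with h0 | h0 <;> rw [h0] <;> norm_num
  have hc : 0 ≤ G 0 := by rw [hG0]; positivity
  have key := Pool.Agent.H3Mahler.main_bound hF hG (A := fun i => PowerSeries.coeff i A) hA0 hFG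
    hk hkl hl2 hAk hAl hz hc hD hκ1 hκ2
  rw [hG0, div_le_iff₀ hMpos] at key
  have hκ0 : 0 < κ := by linarith
  rw [div_le_iff₀ hκ0]
  show (1 : ℝ) ≤ (P.map (Int.castRingHom ℂ)).mahlerMeasure * κ
  linarith

lemma ex_eq_trinomial : (X ^ 5 - X ^ 2 + 1 : ℤ[X]) = trinomial 0 2 5 1 (-1) 1 := by
  simp only [trinomial, C_neg, C_1]; ring

lemma ex_monic : (X ^ 5 - X ^ 2 + 1 : ℤ[X]).Monic := by
  rw [ex_eq_trinomial]; exact trinomial_monic (by norm_num) (by norm_num)

lemma ex_natDegree : (X ^ 5 - X ^ 2 + 1 : ℤ[X]).natDegree = 5 := by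
  rw [ex_eq_trinomial]; exact trinomial_natDegree (by norm_num) (by norm_num) one_ne_zero

lemma ex_reverse : (X ^ 5 - X ^ 2 + 1 : ℤ[X]).reverse = X ^ 5 - X ^ 3 + 1 := by
  have h1 : (X ^ 5 - X ^ 2 + 1 : ℤ[X]) = C 1 * X ^ 5 + (C (-1) * X ^ 2 + C 1 * X ^ 0) := by
    simp only [C_neg, C_1, pow_zero]; ring
  rw [reverse, ex_natDegree, h1, reflect_add, reflect_add, reflect_C_mul_X_pow,
    reflect_C_mul_X_pow, reflect_C_mul_X_pow, revAt_le (show 5 ≤ 5 by norm_num),
    revAt_le (show 2 ≤ 5 by norm_num), revAt_le (show 0 ≤ 5 by norm_num)]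
  simp only [C_neg, C_1]
  norm_num
  ring

lemma ex_irreducible : Irreducible (X ^ 5 - X ^ 2 + 1 : ℤ[X]) := by
  rw [ex_eq_trinomial]
  apply IsUnitTrinomial.irreducible_of_coprime'
    ⟨0, 2, 5, by norm_num, by norm_num, 1, -1, 1, rfl⟩
  rintro z ⟨h1, h2⟩
  rw [trinomial_mirror (by norm_num) (by norm_num) (1 : ℤˣ).ne_zero (1 : ℤˣ).ne_zero] at h2
  simp [trinomial] at h1 h2
  have h4 : z ^ 2 * (z - 1) = 0 := by linear_combination h1 - h2
  rcases mul_eq_zero.mp h4 with h | h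
  · have hz : z = 0 := by simpa using h
    rw [hz] at h1; norm_num at h1
  · have hz : z = 1 := by linear_combination h
    rw [hz] at h1; norm_num at h1

lemma ex_mem : InS (X ^ 5 - X ^ 2 + 1) := by
  have hc0 : (X ^ 5 - X ^ 2 + 1 : ℤ[X]).coeff 0 = 1 := by
    simp [coeff_X_pow, coeff_one]
  have hQ : ((X ^ 5 - X ^ 3 + 1 : ℤ[X]) : PowerSeries ℤ)
      = PowerSeries.X ^ 5 - PowerSeries.X ^ 3 + 1 := by simp
  have hP : ((X ^ 5 - X ^ 2 + 1 : ℤ[X]) : PowerSeries ℤ)
      = PowerSeries.X ^ 5 - PowerSeries.X ^ 2 + 1 := by simp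
  refine ⟨ex_monic, ex_irreducible, ?_, Or.inl hc0, ?_, ?_, ?_⟩
  · intro h
    have := congrArg natDegree h
    rw [ex_natDegree, natDegree_X] at this
    norm_num at this
  · rw [ex_reverse]
    intro h
    have := congrArg (fun p => coeff p 2) h
    simp [coeff_X_pow, coeff_one] at this
  · rw [ex_reverse]
    intro h
    have := congrArg (fun p => coeff p 0) h
    simp [coeff_X_pow, coeff_one] at this
  · rw [ex_reverse, hc0, hQ, hP]
    set Q : PowerSeries ℤ := PowerSeries.X ^ 5 - PowerSeries.X ^ 3 + 1 with hQdef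
    set R : PowerSeries ℤ := PowerSeries.invOfUnit Q 1 with hR
    have hQR : Q * R = 1 := PowerSeries.mul_invOfUnit Q 1 (by simp [hQdef])
    set A : PowerSeries ℤ := (PowerSeries.X ^ 5 - PowerSeries.X ^ 2 + 1) * R with hA
    have hAQ : A * Q = PowerSeries.X ^ 5 - PowerSeries.X ^ 2 + 1 := by
      rw [hA, mul_assoc, mul_comm R Q, hQR, mul_one]
    have hA' : A = PowerSeries.X ^ 5 - PowerSeries.X ^ 2 + 1
        + PowerSeries.X ^ 3 * A - PowerSeries.X ^ 5 * A := by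
      have : A * Q = PowerSeries.X ^ 5 * A - PowerSeries.X ^ 3 * A + A := by
        rw [hQdef]; ring
      rw [this] at hAQ
      linear_combination hAQ
    refine ⟨A, by rw [hAQ]; simp, 2, 3, by norm_num, by norm_num, by norm_num, ?_, ?_, ?_⟩
    · rw [hA']
      simp [PowerSeries.coeff_X_pow, PowerSeries.coeff_one, PowerSeries.coeff_X_pow_mul']
    · have h0 : PowerSeries.coeff 0 A = 1 := by
        rw [hA']
        simp [PowerSeries.coeff_X_pow, PowerSeries.coeff_one, PowerSeries.coeff_X_pow_mul']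
      rw [hA']
      have h0' : PowerSeries.constantCoeff A = 1 := by simpa using h0
      simp [PowerSeries.coeff_X_pow, PowerSeries.coeff_one, PowerSeries.coeff_X_pow_mul', h0']
    · intro i hi0 hi3 hi2
      have : i = 1 := by omega
      subst this
      rw [hA']
      simp [PowerSeries.coeff_X_pow, PowerSeries.coeff_one, PowerSeries.coeff_X_pow_mul']

/-- The Mahler measure has a least value on 𝒮; it is `M(z^5 - z^2 + 1) = 1.3641995…`. -/
theorem result :
    IsLeast (M '' {P : ℤ[X] | InS P}) (M (X ^ 5 - X ^ 2 + 1)) ∧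
      1.3641995 < M (X ^ 5 - X ^ 2 + 1) ∧ M (X ^ 5 - X ^ 2 + 1) < 1.3641996 := by
  obtain ⟨κ, hD, h1, h2⟩ := Pool.Agent.H3Mahler.exists_kappa
  have hκ1 : 73303 / 100000 < κ := by
    have : (73303 / 100000 : ℝ) < 10000000 / 13641996 := by norm_num
    linarith
  have hκ2 : κ < 73304 / 100000 := by
    have : (10000000 / 13641995 : ℝ) < 73304 / 100000 := by norm_num
    linarith
  have hκ0 : 0 < κ := by linarith
  have hM : M (X ^ 5 - X ^ 2 + 1) = 1 / κ := by
    have hmap : ((X ^ 5 - X ^ 2 + 1 : ℤ[X]).map (Int.castRingHom ℂ)) = X ^ 5 - X ^ 2 + 1 := by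
      simp
    rw [M, hmap]
    exact Pool.Agent.H3Mahler.mahler_example hD h1 h2
  refine ⟨⟨⟨_, ex_mem, rfl⟩, ?_⟩, ?_, ?_⟩
  · rintro _ ⟨P, hP, rfl⟩
    rw [hM]
    exact lower hP hD hκ1 hκ2
  · rw [hM, lt_div_iff₀ hκ0]
    have : (10000000 / 13641995 : ℝ) = 1 / 1.3641995 := by norm_num
    rw [this, lt_div_iff₀ (by norm_num)] at h2
    linarith
  · rw [hM, div_lt_iff₀ hκ0]
    have : (10000000 / 13641996 : ℝ) = 1 / 1.3641996 := by norm_num
    rw [this, div_lt_iff₀ (by norm_num)] at h1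
    linarith

end Pool.Agent.Results.MP_a046b2_nt.LeastMeasure
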